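import Pool.Agent.Helper92.PU.St

/-!
# Project PU, module PL2: the solutions in a plane
-/

set_option autoImplicit false

open Finset

namespace Pool.Agent.Helper94.PU

open Pool.Agent.Helper92.PU Pool.Agent.Helper92.PW

private lemma exists_prm (N : Pt) (hN : N ≠ 0) :
    ∃ (g : ℤ) (M : Pt), g ≠ 0 ∧ Prm M ∧ ∀ p, dot N p = g * dot M p := by
  obtain ⟨g, hg⟩ : ∃ g : ℤ, g = (Int.gcd (Int.gcd N.1 N.2.1 : ℤ) N.2.2 : ℤ) := ⟨_, rfl⟩
  have h12 : g ∣ (Int.gcd N.1 N.2.1 : ℤ) := by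
    rw [hg]
    exact Int.gcd_dvd_left _ _
  obtain ⟨a, ha⟩ : g ∣ N.1 := h12.trans (Int.gcd_dvd_left _ _)
  obtain ⟨b, hb⟩ : g ∣ N.2.1 := h12.trans (Int.gcd_dvd_right _ _)
  obtain ⟨c, hc⟩ : g ∣ N.2.2 := by
    rw [hg]
    exact Int.gcd_dvd_right _ _
  have hg0 : g ≠ 0 := by
    intro h0
    rw [h0, zero_mul] at ha hb hc
    apply hN
    ext
    · exact ha
    · exact hb
    · exact hc
  refine ⟨g, (a, b, c), hg0, ?_, ?_⟩
  · intro d h1 h2 h3
    have e1 : g * d ∣ N.1 := by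
      rw [ha]
      exact mul_dvd_mul_left g h1
    have e2 : g * d ∣ N.2.1 := by
      rw [hb]
      exact mul_dvd_mul_left g h2
    have e3 : g * d ∣ N.2.2 := by
      rw [hc]
      exact mul_dvd_mul_left g h3
    have e4 : g * d ∣ g * 1 := by
      rw [mul_one]
      conv_rhs => rw [hg]
      exact Int.dvd_coe_gcd (Int.dvd_coe_gcd e1 e2) e3
    exact isUnit_of_dvd_one ((mul_dvd_mul_iff_left hg0).1 e4)
  · intro p
    unfold dot
    rw [ha, hb, hc]
    ring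

private lemma crs_lf (e1 e2 : Pt) (w w' : ℤ × ℤ) :
    crs (lf e1 e2 w) (lf e1 e2 w') = dt2 w w' • crs e1 e2 := by
  unfold crs lf dt2
  ext
  · simp only [Prod.fst_add, Prod.snd_add, Prod.smul_fst, Prod.smul_snd, smul_eq_mul]
    ring
  · simp only [Prod.fst_add, Prod.snd_add, Prod.smul_fst, Prod.smul_snd, smul_eq_mul]
    ring
  · simp only [Prod.fst_add, Prod.snd_add, Prod.smul_fst, Prod.smul_snd, smul_eq_mul]
    ring

private lemma crs_crs (N f1 f2 : Pt) : crs (crs f2 N) (crs N f1) = det3 N f1 f2 • N := by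
  unfold det3 dot crs
  ext
  · simp only [Prod.smul_fst, smul_eq_mul]
    ring
  · simp only [Prod.smul_fst, Prod.smul_snd, smul_eq_mul]
    ring
  · simp only [Prod.smul_snd, smul_eq_mul]
    ring

private lemma lf_eq (N f1 f2 p : Pt) (h : det3 N f1 f2 = 1) (hp : dot N p = 0) :
    lf (crs f2 N) (crs N f1) (dot f1 p, dot f2 p) = p := by
  unfold det3 at h
  unfold lf
  unfold dot at hp
  unfold dot crs at h ⊢
  ext
  · simp only [Prod.fst_add, Prod.smul_fst, smul_eq_mul]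
    linear_combination p.1 * h - (f1.2.1 * f2.2.2 - f1.2.2 * f2.2.1) * hp
  · simp only [Prod.fst_add, Prod.snd_add, Prod.smul_fst, Prod.smul_snd, smul_eq_mul]
    linear_combination p.2.1 * h - (f1.2.2 * f2.1 - f1.1 * f2.2.2) * hp
  · simp only [Prod.snd_add, Prod.smul_snd, smul_eq_mul]
    linear_combination p.2.2 * h - (f1.1 * f2.2.1 - f1.2.1 * f2.1) * hp

private lemma crs_ne (N f1 f2 : Pt) (α α' : ℤ) (h : det3 N f1 f2 = 1) (ha : α ≠ 0 ∨ α' ≠ 0) :
    crs N (α • f1 + α' • f2) ≠ 0 := by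
  intro h0
  have h1 : dot f2 (crs N (α • f1 + α' • f2)) = α * det3 N f1 f2 := by
    unfold det3 dot crs
    simp only [Prod.fst_add, Prod.snd_add, Prod.smul_fst, Prod.smul_snd, smul_eq_mul]
    ring
  have h2 : dot f1 (crs N (α • f1 + α' • f2)) = -α' * det3 N f1 f2 := by
    unfold det3 dot crs
    simp only [Prod.fst_add, Prod.snd_add, Prod.smul_fst, Prod.smul_snd, smul_eq_mul]
    ring
  have h3 : ∀ f : Pt, dot f 0 = 0 := by
    intro f
    simp [dot]
  rw [h0, h3, h, mul_one] at h1 h2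
  rcases ha with ha | ha
  · exact ha h1.symm
  · exact ha (neg_eq_zero.1 h2.symm)

private lemma dt2_le (N : Pt) (hN : N ≠ 0) (p q : Pt) (t : ℤ) (B : ℝ) (hp : Bd B p) (hq : Bd B q)
    (h : crs p q = t • N) : |(t : ℝ)| ≤ 2 * B ^ 2 := by
  have key : ∀ a b c d n : ℤ, |(a : ℝ)| ≤ B → |(b : ℝ)| ≤ B → |(c : ℝ)| ≤ B → |(d : ℝ)| ≤ B →
      a * b - c * d = t * n → n ≠ 0 → |(t : ℝ)| ≤ 2 * B ^ 2 := by
    intro a b c d n ha hb hc hd he hn
    have h1 : (a : ℝ) * b - c * d = t * n := by exact_mod_cast he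
    have h2 : (1 : ℝ) ≤ |(n : ℝ)| := by
      have : (1 : ℤ) ≤ |n| := Int.one_le_abs hn
      exact_mod_cast this
    have h3 : |(t : ℝ)| ≤ |(t : ℝ) * n| := by
      rw [abs_mul]
      exact le_mul_of_one_le_right (abs_nonneg _) h2
    have h4 : |(a : ℝ) * b| ≤ B * B := by
      rw [abs_mul]
      exact mul_le_mul ha hb (abs_nonneg _) ((abs_nonneg _).trans ha)
    have h5 : |(c : ℝ) * d| ≤ B * B := by
      rw [abs_mul]
      exact mul_le_mul hc hd (abs_nonneg _) ((abs_nonneg _).trans hc)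
    have h6 : |(a : ℝ) * b - c * d| ≤ |(a : ℝ) * b| + |(c : ℝ) * d| := abs_sub _ _
    rw [h1] at h6
    nlinarith
  obtain ⟨p1, p2, p3⟩ := hp
  obtain ⟨q1, q2, q3⟩ := hq
  have e1 := congrArg Prod.fst h
  have e2 := congrArg (fun x => x.2.1) h
  have e3 := congrArg (fun x => x.2.2) h
  simp only [crs, Prod.smul_fst, Prod.smul_snd, smul_eq_mul] at e1 e2 e3
  by_cases n1 : N.1 = 0
  · by_cases n2 : N.2.1 = 0
    · by_cases n3 : N.2.2 = 0
      · exact absurd (by ext; exacts [n1, n2, n3]) hN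
      · exact key _ _ _ _ _ p1 q2 p2 q1 e3 n3
    · exact key _ _ _ _ _ p3 q1 p1 q3 e2 n2
  · exact key _ _ _ _ _ p2 q3 p3 q2 e1 n1

theorem hPL2 (h1 : StTR) (h2 : StGC) (h3 : StBAS) (h4 : StLN3) : StPL2 := by
  intro k ε hk hε
  have hk0 : (k : ℝ) ≠ 0 := by
    have : k ≠ 0 := fun h0 => hk 0 (by rw [h0]; norm_num)
    exact_mod_cast this
  obtain ⟨C, hC, hTR⟩ := h1 3 3 (k : ℝ) (ε / 2) (by norm_num) (by norm_num) hk0 (by linarith)
  refine ⟨C * 2 ^ (ε / 2), by positivity, ?_⟩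
  intro B N S hB hN hS
  obtain ⟨g0, M, hg0, hM, hdot⟩ := exists_prm N hN
  have hM0 : M ≠ 0 := by
    rintro rfl
    have := hM 0 (dvd_zero _) (dvd_zero _) (dvd_zero _)
    exact not_isUnit_zero this
  obtain ⟨f1, f2, hdet⟩ := h3 M hM
  have hMd : ∀ p ∈ S, dot M p = 0 := by
    intro p hp
    have h5 := (hS p hp).2.2
    rw [hdot] at h5
    rcases mul_eq_zero.1 h5 with h6 | h6
    · exact absurd h6 hg0
    · exact h6
  obtain ⟨w, hw⟩ : ∃ w : Pt → ℤ × ℤ, w = fun p => (dot f1 p, dot f2 p) := ⟨_, rfl⟩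
  have hlf : ∀ p ∈ S, lf (crs f2 M) (crs M f1) (w p) = p := by
    intro p hp
    rw [hw]
    exact lf_eq M f1 f2 p hdet (hMd p hp)
  have hinj : Set.InjOn w (S : Set Pt) := by
    intro p hp q hq hpq
    rw [← hlf p hp, ← hlf q hq, hpq]
  obtain ⟨g, hg⟩ := h2.1 (crs f2 M) (crs M f1)
  have hTW : TW 3 3 (k : ℝ) g (S.image w) := by
    refine ⟨?_, ?_, ?_⟩
    · intro v _
      exact ⟨_, hg v⟩
    · intro v hv
      obtain ⟨p, hp, rfl⟩ := Finset.mem_image.1 hv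
      rw [hg, hlf p hp, (hS p hp).1]
    · intro α α' γ hα
      have h5 : (S.image w).filter (fun v => α * v.1 + α' * v.2 = γ) =
          (S.filter fun p => α * (w p).1 + α' * (w p).2 = γ).image w := by
        rw [Finset.filter_image]
      rw [h5]
      refine Finset.card_image_le.trans ?_
      refine h4 k hk M (α • f1 + α' • f2) γ (crs_ne M f1 f2 α α' hdet hα) _ ?_
      intro p hp
      obtain ⟨hp1, hp2⟩ := Finset.mem_filter.1 hp
      refine ⟨(hS p hp1).1, hMd p hp1, ?_⟩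
      rw [← hp2, hw]
      unfold dot
      simp only [Prod.fst_add, Prod.snd_add, Prod.smul_fst, Prod.smul_snd, smul_eq_mul]
      ring
  have hdt : ∀ v ∈ S.image w, ∀ v' ∈ S.image w, |(dt2 v v' : ℝ)| ≤ 2 * B ^ 2 := by
    intro v hv v' hv'
    obtain ⟨p, hp, rfl⟩ := Finset.mem_image.1 hv
    obtain ⟨q, hq, rfl⟩ := Finset.mem_image.1 hv'
    refine dt2_le M hM0 p q _ B (hS p hp).2.1 (hS q hq).2.1 ?_
    have h5 := crs_lf (crs f2 M) (crs M f1) (w p) (w q)
    rw [hlf p hp, hlf q hq, crs_crs, hdet, one_smul] at h5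
    exact h5
  have hfin := hTR (2 * B ^ 2) g (S.image w) (by nlinarith) hTW hdt
  rw [Finset.card_image_of_injOn hinj] at hfin
  have hB0 : (0 : ℝ) ≤ B := by linarith
  have e1 : (2 * B ^ 2) ^ (ε / 2) = (2 : ℝ) ^ (ε / 2) * B ^ ε := by
    rw [Real.mul_rpow (by norm_num) (by positivity), ← Real.rpow_natCast B 2, ← Real.rpow_mul hB0]
    congr 2
    push_cast
    ring
  rw [e1, ← mul_assoc] at hfin
  exact hfin

end Pool.Agent.Helper94.PU
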